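import Pool.Agent.J6H49.BI.Final

/-!
# Bi-immune sets at every level of the polynomial hierarchy, for random oracles, although
polynomial space is nearly polynomial time

A set `L` of the level `Σ_{k+1}` which is not in the level `Σ_k` may still contain, or be disjoint
from, large sets of the level `Σ_k`. The strongest possible way to separate the two levels is a
bi-immune set: a set `L` of the level `Σ_{k+1}` such that every infinite set of the level `Σ_k`
meets both `L` and its complement. We show that such sets exist for all `k ≥ 1`, with probability
one for a random oracle (joined with one fixed table `T` and any other oracle `E₀`), and even after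
adding information `E` which makes polynomial space nearly polynomial time.

The main tool is a correlation bound for a single tree of gates NOR: no Boolean combination of a
few formulas with fewer alternations says anything about the value at the root, up to a
superpolynomially small error.
-/

set_option autoImplicit false

namespace Pool.Agent.Results.MP_28250c_lc.BiImmuneLevels

open Pool.Agent.H620R2.Gauge Pool.Agent.H591R3.PHG MeasureTheory
open Pool.Agent.J6H7.RO (randomOracle)
open Pool.Agent.J6H49.BI (fair)
open Pool.Agent.TH678.GC (join)
open Pool.Agent.TH678.RS (InTime)

/-- The set `L` is bi-immune for the level `Σ_k` relative to the oracle `O`: no infinite set of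
this level is contained in `L` or in the complement of `L`. -/
def BiImmune (O : Oracle) (k : ℕ) (L : Set (List Bool)) : Prop :=
  ∀ S : Set (List Bool), IsSig O k S → S.Infinite → ¬ S ⊆ L ∧ ¬ S ⊆ Lᶜ

/-- Let `α : ℕ → ℕ` be nondecreasing and unbounded. There are an oracle `T` and a map `E` on the
oracles such that

* for every oracle `B`, relative to the join of `B` and `E B` all the problems in polynomial space
  are decided in time `n ^ O(α n)`;
* for every oracle `E₀`, for almost every oracle `A` (for the fair random oracle), if `B` is the
  join of `A`, `E₀` and `T`, then for every `k ≥ 1` there is a set in the level `Σ_{k+1}` of the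
  polynomial hierarchy relative to the join of `B` and `E B` which is bi-immune for the level `Σ_k`
  relative to this oracle. -/
theorem result (α : ℕ → ℕ) (hα : Monotone α) (hα' : Filter.Tendsto α Filter.atTop Filter.atTop) :
    ∃ (T : Oracle) (E : Oracle → Oracle),
      (∀ B : Oracle, ∀ L, IsPSPACE (join B (E B)) L → InTime α (join B (E B)) L) ∧
      ∀ E₀ : Oracle, ∀ᵐ A ∂(randomOracle fun _ => fair), ∀ k : ℕ, 1 ≤ k →
        ∃ L : Set (List Bool),
          IsSig (join (join (join A E₀) T) (E (join (join A E₀) T))) (k + 1) L ∧
          BiImmune (join (join (join A E₀) T) (E (join (join A E₀) T))) k L := by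
  obtain ⟨T, E, h1, h2⟩ := Pool.Agent.J6H49.BI.main α hα hα'
  refine ⟨T, E, h1, fun E₀ => ?_⟩
  filter_upwards [h2 E₀] with A hA k hk
  obtain ⟨j, rfl⟩ : ∃ j, k = j + 1 := ⟨k - 1, by omega⟩
  exact hA j

end Pool.Agent.Results.MP_28250c_lc.BiImmuneLevels
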