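import Pool.Agent.J6H11.Hlp.Hier

/-!
# The hierarchy of alternating short guesses over circuits with few non-monotone inputs is strict

`Level g s k b f` (in `Pool.Agent.J6H27.MPH.Defs`): the predicate `f` is of the form
`Q₁ u₁ … Q_k u_k : C_{u₁ … u_k}(x) = 1` with alternating quantifiers over strings of `g` bits
(beginning with `∃` if `b = true` and with `∀` if `b = false`) and with monotone circuits
`C_{u₁ … u_k}` with at most `s` gates. `Strategy D l` (in `Pool.Agent.J6H7.Chain.Defs`): a
computation which asks adaptively `l.length` rounds of questions, `l[i]` questions in the `i`-th
round; each question is whether a device of `D` accepts the input, and the final answer is given by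
a device which depends on all the answers.

`Help a help` (in `Pool.Agent.J6H11.Hlp.Dev`): the numbers `help x j`, `j < T`, modulo a prime `p`
are sums with arbitrary weights of nodes of depth at most `a` of a circuit with at most `N ^ a` gates,
which are negations and conjunctions and disjunctions of arbitrary fan-in. So these are `T`
arbitrary non-monotone predicates of the class `MOD_p ∘ AC⁰`. For instance `help` may consist of
`T` arbitrary parities (of any number of variables), or of parities of polynomially many conjunctions
of literals, or of `T` of the variables.

The theorem says that the (nonuniform) polynomial hierarchy with short guesses is strict at every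
level for circuits which are monotone, except that they may use `N ^ (1 - ε)` arbitrary predicates of
this kind in an arbitrary way (the circuits depend in an arbitrary way on the values of these
predicates), and also if in addition a few adaptive non-monotone questions are allowed. With `N`
predicates (the variables) every function would be computed, by constant circuits. For `m = 0` it is
a version of P ≠ NP.

Proof. Let `f' n` be the functions of `MonotoneHierarchy`, and let `f N x = f' n (y)` where `y i` is
the majority of the variables `x v` with `v ≡ i` modulo `n`, `n = ⌊N ^ δ⌋`. Given `help` we construct
a monotone projection (each `x v` becomes a constant or one of the variables `y i`) such that the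
majorities become the variables `y i` and all the numbers `help x j` are constant (theorem
`embed`). A random restriction turns all nodes of the circuit into decision trees of
constant depth `h` (switching lemma, from the library `Pool.Agent.H592R3`), and so the `help x j` into
polynomials of degree `h` over the field with `p` elements; the number of the restricted variables with
value one in a block is sufficiently close to the half. Choose values of the free variables such that one
variable with value one is missing for the majority in each block. Then we choose, block after block, a
nonempty set `D i` of free variables with value zero in the block `i` such that the polynomials do not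
change if the values in `D i` are changed to one, for each choice of the blocks before. Since a
polynomial of degree `h` is determined by its values at the vectors of weight at most `h`, these are at
most `T (n + 1) ^ h` conditions, polynomial equations of degree `h` for the indicator vector of
`D i`, which has the solution zero; by the theorem of Chevalley and Warning (for the cube) there is
another solution, as the number of free variables in the block is larger than `(p - 1) h T (n + 1) ^ h`
(theorem `cube`).
-/

set_option autoImplicit false

namespace Pool.Agent.Results.MP_28250c_lc.HierarchyWithHelp

open Filter Pool.Agent.J6H27.MPH Pool.Agent.J6H7.Chain Pool.Agent.J6H11.Hlp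

/-- **Strictness at every level.** For every `m`, `ε > 0` and `a` there are `δ > 0` and a family of
functions `f N` of `N` variables such that for all large `N` the function `f N` is given by `m + 1`
alternating quantifiers `∃ ∀ …` over strings of only `(log N) ^ 3` bits in front of monotone
circuits with at most `N ^ 3` gates, but, for every `c` and all large `N`, the following holds. Let
`help` be `T ≤ N ^ (1 - ε)` arbitrary non-monotone predicates of the class `MOD_p ∘ AC⁰` (depth
`a`, at most `N ^ a` gates, `p ≤ N ^ δ` prime), and for each possible value `v` of `help` let `S v`
be a strategy whose questions are predicates with `m` alternating quantifiers (of either type)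
over strings of at most `N ^ δ` bits in front of monotone circuits with `N ^ c` gates, such that the
product of the numbers `w + 1` over the rounds of `w` questions, times the number of
questions plus one, is at most `N ^ δ`. Then `f N` is not computed by the device which runs `S v` for
the value `v` of `help`. -/
theorem result (m : ℕ) (ε : ℝ) (hε : 0 < ε) (a : ℕ) :
    ∃ (δ : ℝ) (f : ∀ N : ℕ, (Fin N → Bool) → Prop), 0 < δ ∧
      (∀ᶠ N : ℕ in atTop, Level (Nat.log 2 N ^ 3) (N ^ 3) (m + 1) true (f N)) ∧
      ∀ c : ℕ, ∀ᶠ N : ℕ in atTop, ∀ (p : ℕ) [Fact p.Prime] (T : ℕ)
        (help : (Fin N → Bool) → Fin T → ZMod p) (g : ℕ) (l : (Fin T → ZMod p) → List ℕ)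
        (S : ∀ v, Strategy
          {d : (Fin N → Bool) → Prop // Level g (N ^ c) m true d ∨ Level g (N ^ c) m false d} (l v)),
        (p : ℝ) ≤ (N : ℝ) ^ δ → (T : ℝ) ≤ (N : ℝ) ^ (1 - ε) → Help a help →
        (g : ℝ) ≤ (N : ℝ) ^ δ →
        (∀ v, ((((l v).map (· + 1)).prod * ((l v).sum + 1) : ℕ) : ℝ) ≤ (N : ℝ) ^ δ) →
        ¬ ∀ x, (S (help x)).run (fun d x => d.1 x) x ↔ f N x :=
  hierarchy_help m ε hε a

end Pool.Agent.Results.MP_28250c_lc.HierarchyWithHelp
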