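import Pool.Agent.J6H27.MPH.Fin

/-!
# The hierarchy of alternating short guesses over monotone circuits is strict

`Level g s k b f` (in `Pool.Agent.J6H27.MPH.Defs`): the predicate `f` is of the form
`Q₁ u₁ … Q_k u_k : C_{u₁ … u_k}(x) = 1` with alternating quantifiers over strings of `g` bits
(beginning with `∃` if `b = true` and with `∀` if `b = false`) and with monotone circuits
`C_{u₁ … u_k}` with at most `s` gates. `Strategy D l` (in `Pool.Agent.J6H7.Chain.Defs`): a
computation which asks adaptively `l.length` rounds of questions, `l[i]` questions in the `i`-th
round; each question is whether a device of `D` accepts the input, and the final answer is given by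
a device which depends on all the answers.
-/

set_option autoImplicit false

namespace Pool.Agent.Results.MP_28250c_lc.MonotoneHierarchy

open Filter Pool.Agent.J6H27.MPH Pool.Agent.J6H7.Chain

/-- **Strictness at every level.** For every `m` and every `ε > 0` there are `δ > 0` and a family of
functions `f N` of `N` variables such that for all large `N` the function `f N` is given by `m + 1`
alternating quantifiers `∃ ∀ …` over strings of only `(log N) ^ 3` bits in front of monotone
circuits with only `(log N) ^ 3` gates, but, for every `c` and all large `N`, it is not computed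
by a strategy whose questions are predicates with `m` alternating quantifiers (of either type) over
strings of `N ^ δ` bits in front of monotone circuits with `N ^ c` gates, as long as the product of
the numbers `w + 1` over the rounds of `w` questions, times the number of questions plus one, is at
most `N ^ (1 - ε)`. -/
theorem result (m : ℕ) (ε : ℝ) (hε : 0 < ε) :
    ∃ (δ : ℝ) (f : ∀ N : ℕ, (Fin N → Bool) → Prop), 0 < δ ∧
      (∀ᶠ N : ℕ in atTop, Level (Nat.log 2 N ^ 3) (Nat.log 2 N ^ 3) (m + 1) true (f N)) ∧
      ∀ c : ℕ, ∀ᶠ N : ℕ in atTop, ∀ (g : ℕ) (l : List ℕ) (S : Strategy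
        {d : (Fin N → Bool) → Prop // Level g (N ^ c) m true d ∨ Level g (N ^ c) m false d} l),
        (g : ℝ) ≤ (N : ℝ) ^ δ →
        (((l.map (· + 1)).prod * (l.sum + 1) : ℕ) : ℝ) ≤ (N : ℝ) ^ (1 - ε) →
        ¬ ∀ x, S.run (fun d x => d.1 x) x ↔ f N x :=
  hierarchy m ε hε

end Pool.Agent.Results.MP_28250c_lc.MonotoneHierarchy
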