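import Pool.Agent.J6H7.RO.Cor
import Pool.Agent.J6H7.RO.Upp

/-!
# The polynomial hierarchy relative to random oracles of an arbitrary density

Let `p n` be a density for every length `n`: each string `x` is put into the oracle `A` with
probability `p |x|`, independently. If for every `c` there are infinitely many lengths `n` for
which both the expected number `p n * 2 ^ n` of the strings of length `n` in `A` and the expected
number `(1 - p n) * 2 ^ n` of the strings of length `n` which are not in `A` are at least `n ^ c`,
then with probability one all the levels of the polynomial hierarchy relative to `A` are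
different, even nonuniformly, and even if an arbitrary further oracle `E` is given.
-/

set_option autoImplicit false

namespace Pool.Agent.Results.MP_28250c_lc.RandomDensityOracles

open Pool.Agent.H620R2.Gauge Pool.Agent.H591R3.PHG Pool.Agent.J6H7.RO MeasureTheory

/-- Let `p : ℕ → [0,1]` be such that for every `c` there are infinitely many `n` with
`n ^ c ≤ p n * 2 ^ n` and `n ^ c ≤ (1 - p n) * 2 ^ n`, and let `E` be any oracle. If `A` is a
random oracle which contains every string `x` with probability `p |x|`, independently, then with
probability one, for every `k` there is a language in the level `Σ_{k+1}` of the polynomial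
hierarchy relative to the join of `A` and `E` which is not in the level `Σ_k` relative to this
oracle, not even with polynomial advice. -/
theorem result (p : ℕ → unitInterval)
    (hp : ∀ c : ℕ, ∃ᶠ n : ℕ in Filter.atTop,
      (n : ℝ) ^ c ≤ p n * 2 ^ n ∧ (n : ℝ) ^ c ≤ (1 - p n) * 2 ^ n)
    (E : Oracle) :
    ∀ᵐ A ∂(randomOracle p), ∀ k : ℕ, ∃ L : Set (List Bool),
      IsSig (join A E) (k + 1) L ∧ ¬ IsSig (join A E) k L ∧ ¬ IsSigPoly (join A E) k L := by
  filter_upwards [ae_hard p hp E] with A hA k
  by_contra hcon
  push Not at hcon
  have h1 : ∀ L, IsSig (join A E) (k + 1) L → IsSigPoly (join A E) k L := by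
    intro L hL
    by_contra h2
    exact h2 (hcon L hL (fun h3 => h2 h3.isSigPoly))
  obtain ⟨L, hL, hn⟩ := hA k
  exact hn (upward_poly h1 L hL)

end Pool.Agent.Results.MP_28250c_lc.RandomDensityOracles
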